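import Mathlib

set_option autoImplicit false

namespace Pool.Agent.H33.Crit

open Classical

variable {V : Type*}

/-- vertices of a building sequence: base set plus the vertices added by the rows -/
def vs (T : Set V) : List (V × V × V) → Set V
  | [] => T
  | (u, _, _) :: l => insert u (vs T l)

/-- `Good G T l`: every row `(u,a,b)` adds a new vertex `u` adjacent to two distinct earlier vertices. -/
def Good (G : SimpleGraph V) (T : Set V) : List (V × V × V) → Prop
  | [] => True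
  | (u, a, b) :: l => Good G T l ∧ u ∉ vs T l ∧ a ∈ vs T l ∧ b ∈ vs T l ∧ a ≠ b ∧
      G.Adj u a ∧ G.Adj u b

/-- `R T l p q m`: disjoint descending paths from `p` and `q` to distinct points of the base,
of total length `m`. -/
def R (T : Set V) : List (V × V × V) → V → V → ℕ → Prop
  | [], p, q, m => p ∈ T ∧ q ∈ T ∧ p ≠ q ∧ m = 0
  | (u, a, b) :: l, p, q, m => p ≠ q ∧
      ((p ≠ u ∧ q ≠ u ∧ R T l p q m) ∨
       (p = u ∧ ∃ k, m = k + 1 ∧ (R T l a q k ∨ R T l b q k)) ∨
       (q = u ∧ ∃ k, m = k + 1 ∧ (R T l p a k ∨ R T l p b k)))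

/-- `Fk T l p m`: a fork at `p` of total length `m`. -/
def Fk (T : Set V) : List (V × V × V) → V → ℕ → Prop
  | [], _, _ => False
  | (u, a, b) :: l, p, m => (p = u ∧ ∃ k, m = k + 2 ∧ R T l a b k) ∨ (p ≠ u ∧ Fk T l p m)

lemma base_sub (T : Set V) (l : List (V × V × V)) : T ⊆ vs T l := by
  induction l with
  | nil => exact subset_rfl
  | cons r l ih =>
    obtain ⟨u, a, b⟩ := r
    exact ih.trans (Set.subset_insert _ _)

lemma R_ne {T : Set V} {l : List (V × V × V)} {p q : V} {m : ℕ} (h : R T l p q m) : p ≠ q := by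
  cases l with
  | nil => exact h.2.2.1
  | cons r l => obtain ⟨u, a, b⟩ := r; exact h.1

lemma R_symm {T : Set V} {l : List (V × V × V)} : ∀ {p q : V} {m : ℕ}, R T l p q m → R T l q p m := by
  induction l with
  | nil => intro p q m h; exact ⟨h.2.1, h.1, h.2.2.1.symm, h.2.2.2⟩
  | cons r l ih =>
    obtain ⟨u, a, b⟩ := r
    intro p q m h
    refine ⟨h.1.symm, ?_⟩
    rcases h.2 with ⟨h1, h2, h3⟩ | ⟨h1, k, h2, h3⟩ | ⟨h1, k, h2, h3⟩
    · exact Or.inl ⟨h2, h1, ih h3⟩
    · exact Or.inr (Or.inr ⟨h1, k, h2, h3.imp ih ih⟩)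
    · exact Or.inr (Or.inl ⟨h1, k, h2, h3.imp ih ih⟩)

lemma R_mem {G : SimpleGraph V} {T : Set V} {l : List (V × V × V)} :
    Good G T l → ∀ {p q : V} {m : ℕ}, R T l p q m → p ∈ vs T l ∧ q ∈ vs T l := by
  induction l with
  | nil => intro _ p q m h; exact ⟨h.1, h.2.1⟩
  | cons r l ih =>
    obtain ⟨u, a, b⟩ := r
    intro hg p q m h
    have ih' := @ih hg.1
    rcases h.2 with ⟨h1, h2, h3⟩ | ⟨h1, k, h2, h3⟩ | ⟨h1, k, h2, h3⟩
    · exact ⟨Or.inr (ih' h3).1, Or.inr (ih' h3).2⟩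
    · refine ⟨Or.inl h1, Or.inr ?_⟩
      rcases h3 with h3 | h3
      · exact (ih' h3).2
      · exact (ih' h3).2
    · refine ⟨Or.inr ?_, Or.inl h1⟩
      rcases h3 with h3 | h3
      · exact (ih' h3).1
      · exact (ih' h3).1

/-- lift to a longer list -/
lemma R_lift {T : Set V} {l : List (V × V × V)} {u a b p q : V} {m : ℕ}
    (hp : p ≠ u) (hq : q ≠ u) (h : R T l p q m) : R T ((u, a, b) :: l) p q m :=
  ⟨R_ne h, Or.inl ⟨hp, hq, h⟩⟩

lemma R_left {T : Set V} {l : List (V × V × V)} {u a b q c : V} {m : ℕ}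
    (hq : q ≠ u) (hc : c = a ∨ c = b) (h : R T l c q m) : R T ((u, a, b) :: l) u q (m + 1) := by
  refine ⟨hq.symm, Or.inr (Or.inl ⟨rfl, m, rfl, ?_⟩)⟩
  rcases hc with rfl | rfl
  · exact Or.inl h
  · exact Or.inr h

lemma R_right {T : Set V} {l : List (V × V × V)} {u a b q c : V} {m : ℕ}
    (hq : q ≠ u) (hc : c = a ∨ c = b) (h : R T l q c m) : R T ((u, a, b) :: l) q u (m + 1) :=
  R_symm (R_left hq hc (R_symm h))

/-- destructing a pair containing the top vertex -/
lemma R_top {T : Set V} {l : List (V × V × V)} {u a b q : V} {m : ℕ}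
    (h : R T ((u, a, b) :: l) u q m) : q ≠ u ∧ ∃ k c, m = k + 1 ∧ (c = a ∨ c = b) ∧ R T l c q k := by
  refine ⟨h.1.symm, ?_⟩
  rcases h.2 with ⟨h1, h2, h3⟩ | ⟨h1, k, h2, h3⟩ | ⟨h1, k, h2, h3⟩
  · exact absurd rfl h1
  · rcases h3 with h3 | h3
    · exact ⟨k, a, h2, Or.inl rfl, h3⟩
    · exact ⟨k, b, h2, Or.inr rfl, h3⟩
  · exact absurd h1.symm h.1

lemma R_low {T : Set V} {l : List (V × V × V)} {u a b p q : V} {m : ℕ}
    (hp : p ≠ u) (hq : q ≠ u) (h : R T ((u, a, b) :: l) p q m) : R T l p q m := by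
  rcases h.2 with ⟨h1, h2, h3⟩ | ⟨h1, k, h2, h3⟩ | ⟨h1, k, h2, h3⟩
  · exact h3
  · exact absurd h1 hp
  · exact absurd h1 hq

/-- the four-point exchange inequality -/
lemma four {T : Set V} (l : List (V × V × V)) : ∀ (a b c d : V) (m k : ℕ),
    R T l a b m → R T l c d k → ∃ m' k', m' + k' ≤ m + k ∧
      ((R T l a c m' ∧ R T l b d k') ∨ (R T l a d m' ∧ R T l b c k')) := by
  induction l with
  | nil =>
    intro a b c d m k h1 h2
    obtain ⟨ha, hb, hab, hm⟩ := h1
    obtain ⟨hc, hd, hcd, hk⟩ := h2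
    by_cases hac : a = c
    · subst hac
      exact ⟨0, 0, by omega, Or.inr ⟨⟨ha, hd, hcd, rfl⟩, ⟨hb, ha, hab.symm, rfl⟩⟩⟩
    · by_cases hbd : b = d
      · subst hbd
        exact ⟨0, 0, by omega, Or.inr ⟨⟨ha, hb, hab, rfl⟩, ⟨hb, hc, hcd.symm, rfl⟩⟩⟩
      · exact ⟨0, 0, by omega, Or.inl ⟨⟨ha, hc, hac, rfl⟩, ⟨hb, hd, hbd, rfl⟩⟩⟩
  | cons r l ih =>
    obtain ⟨u, α, β⟩ := r
    -- the case `a = u`
    have key : ∀ (b c d : V) (m k : ℕ), R T ((u, α, β) :: l) u b m → R T ((u, α, β) :: l) c d k →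
        ∃ m' k', m' + k' ≤ m + k ∧
          ((R T ((u, α, β) :: l) u c m' ∧ R T ((u, α, β) :: l) b d k') ∨
           (R T ((u, α, β) :: l) u d m' ∧ R T ((u, α, β) :: l) b c k')) := by
      intro b c d m k h1 h2
      obtain ⟨hbu, k0, e, hm, he, h3⟩ := R_top h1
      by_cases hcu : c = u
      · subst hcu
        exact ⟨k, m, by omega, Or.inr ⟨h2, R_symm h1⟩⟩
      · by_cases hdu : d = u
        · subst hdu
          exact ⟨k, m, by omega, Or.inl ⟨R_symm h2, R_symm h1⟩⟩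
        · have h2' := R_low hcu hdu h2
          obtain ⟨m', k', hs, hh⟩ := ih e b c d k0 k h3 h2'
          refine ⟨m' + 1, k', by omega, ?_⟩
          rcases hh with ⟨x1, x2⟩ | ⟨x1, x2⟩
          · exact Or.inl ⟨R_left hcu he x1, R_lift hbu hdu x2⟩
          · exact Or.inr ⟨R_left hdu he x1, R_lift hbu hcu x2⟩
    intro a b c d m k h1 h2
    by_cases hau : a = u
    · subst hau; exact key b c d m k h1 h2
    · by_cases hbu : b = u
      · subst hbu
        obtain ⟨m', k', hs, hh⟩ := key a d c m k (R_symm h1) (R_symm h2)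
        refine ⟨k', m', by omega, ?_⟩
        rcases hh with ⟨x1, x2⟩ | ⟨x1, x2⟩
        · exact Or.inl ⟨x2, x1⟩
        · exact Or.inr ⟨x2, x1⟩
      · by_cases hcu : c = u
        · subst hcu
          obtain ⟨m', k', hs, hh⟩ := key d a b k m h2 h1
          rcases hh with ⟨x1, x2⟩ | ⟨x1, x2⟩
          · exact ⟨m', k', by omega, Or.inl ⟨R_symm x1, R_symm x2⟩⟩
          · exact ⟨k', m', by omega, Or.inr ⟨R_symm x2, R_symm x1⟩⟩
        · by_cases hdu : d = u
          · subst hdu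
            obtain ⟨m', k', hs, hh⟩ := key c b a k m (R_symm h2) (R_symm h1)
            rcases hh with ⟨x1, x2⟩ | ⟨x1, x2⟩
            · exact ⟨k', m', by omega, Or.inl ⟨R_symm x2, R_symm x1⟩⟩
            · exact ⟨m', k', by omega, Or.inr ⟨R_symm x1, R_symm x2⟩⟩
          · obtain ⟨m', k', hs, hh⟩ := ih a b c d m k (R_low hau hbu h1) (R_low hcu hdu h2)
            refine ⟨m', k', hs, ?_⟩
            rcases hh with ⟨x1, x2⟩ | ⟨x1, x2⟩
            · exact Or.inl ⟨R_lift hau hcu x1, R_lift hbu hdu x2⟩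
            · exact Or.inr ⟨R_lift hau hdu x1, R_lift hbu hcu x2⟩

/-- exchange with a base vertex -/
lemma sink {G : SimpleGraph V} {T : Set V} (l : List (V × V × V)) : Good G T l → ∀ (s c d : V) (m : ℕ),
    s ∈ T → R T l c d m → ∃ m', m' ≤ m ∧ (R T l c s m' ∨ R T l d s m') := by
  induction l with
  | nil =>
    intro _ s c d m hs h
    obtain ⟨hc, hd, hcd, hm⟩ := h
    by_cases hcs : c = s
    · subst hcs
      exact ⟨0, by omega, Or.inr ⟨hd, hc, hcd.symm, rfl⟩⟩
    · exact ⟨0, by omega, Or.inl ⟨hc, hs, hcs, rfl⟩⟩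
  | cons r l ih =>
    obtain ⟨u, α, β⟩ := r
    intro hg s c d m hs h
    have hsu : s ≠ u := by
      rintro rfl; exact hg.2.1 (base_sub T l hs)
    by_cases hcu : c = u
    · subst hcu
      obtain ⟨hdu, k0, e, hm, he, h3⟩ := R_top h
      obtain ⟨m', hm', hh⟩ := ih hg.1 s e d k0 hs h3
      rcases hh with hh | hh
      · exact ⟨m' + 1, by omega, Or.inl (R_left hsu he hh)⟩
      · exact ⟨m', by omega, Or.inr (R_lift hdu hsu hh)⟩
    · by_cases hdu : d = u
      · subst hdu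
        obtain ⟨_, k0, e, hm, he, h3⟩ := R_top (R_symm h)
        obtain ⟨m', hm', hh⟩ := ih hg.1 s e c k0 hs h3
        rcases hh with hh | hh
        · exact ⟨m' + 1, by omega, Or.inr (R_left hsu he hh)⟩
        · exact ⟨m', by omega, Or.inl (R_lift hcu hsu hh)⟩
      · obtain ⟨m', hm', hh⟩ := ih hg.1 s c d m hs (R_low hcu hdu h)
        rcases hh with hh | hh
        · exact ⟨m', hm', Or.inl (R_lift hcu hsu hh)⟩
        · exact ⟨m', hm', Or.inr (R_lift hdu hsu hh)⟩

/-- exchange with a fork -/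
lemma forkex {G : SimpleGraph V} {T : Set V} (l : List (V × V × V)) : Good G T l →
    ∀ (c d q : V) (k m2 : ℕ), R T l c d k → Fk T l q m2 → q ≠ c → q ≠ d →
    (∃ m', m' + 1 ≤ k ∧ (R T l c q m' ∨ R T l d q m')) ∨
    (∃ m1 m3, m1 + m3 ≤ k + m2 ∧ R T l c q m1 ∧ R T l d q m3) := by
  induction l with
  | nil => intro _ c d q k m2 _ h; exact h.elim
  | cons r l ih =>
    obtain ⟨u, α, β⟩ := r
    intro hg
    -- the case `c = u`
    have key : ∀ (d q : V) (k m2 : ℕ), R T ((u, α, β) :: l) u d k → Fk T l q m2 → q ≠ u → q ≠ d →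
        (∃ m', m' + 1 ≤ k ∧ (R T ((u, α, β) :: l) u q m' ∨ R T ((u, α, β) :: l) d q m')) ∨
        (∃ m1 m3, m1 + m3 ≤ k + m2 ∧ R T ((u, α, β) :: l) u q m1 ∧ R T ((u, α, β) :: l) d q m3) := by
      intro d q k m2 h1 h2 hqu hqd
      obtain ⟨hdu, k0, e, hm, he, h3⟩ := R_top h1
      by_cases hqe : q = e
      · subst hqe
        exact Or.inl ⟨k0, by omega, Or.inr (R_lift hdu hqu (R_symm h3))⟩
      · rcases ih hg.1 e d q k0 m2 h3 h2 hqe hqd with ⟨m', hm', hh⟩ | ⟨m1, m3, hs, hh1, hh2⟩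
        · rcases hh with hh | hh
          · exact Or.inl ⟨m' + 1, by omega, Or.inl (R_left hqu he hh)⟩
          · exact Or.inl ⟨m', by omega, Or.inr (R_lift hdu hqu hh)⟩
        · exact Or.inr ⟨m1 + 1, m3, by omega, R_left hqu he hh1, R_lift hdu hqu hh2⟩
    intro c d q k m2 h1 h2 hqc hqd
    rcases h2 with ⟨hqu, k2, hk2, hab⟩ | ⟨hqu, h2⟩
    · subst hqu
      have h1' := R_low (Ne.symm hqc) (Ne.symm hqd) h1
      obtain ⟨m', k', hs, hh⟩ := four l c d α β k k2 h1' hab
      refine Or.inr ⟨m' + 1, k' + 1, by omega, ?_⟩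
      rcases hh with ⟨x1, x2⟩ | ⟨x1, x2⟩
      · exact ⟨R_right (Ne.symm hqc) (Or.inl rfl) x1, R_right (Ne.symm hqd) (Or.inr rfl) x2⟩
      · exact ⟨R_right (Ne.symm hqc) (Or.inr rfl) x1, R_right (Ne.symm hqd) (Or.inl rfl) x2⟩
    · by_cases hcu : c = u
      · subst hcu; exact key d q k m2 h1 h2 hqu hqd
      · by_cases hdu : d = u
        · subst hdu
          rcases key c q k m2 (R_symm h1) h2 hqu hqc with ⟨m', hm', hh⟩ | ⟨m1, m3, hs, hh1, hh2⟩
          · exact Or.inl ⟨m', hm', hh.symm⟩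
          · exact Or.inr ⟨m3, m1, by omega, hh2, hh1⟩
        · rcases ih hg.1 c d q k m2 (R_low hcu hdu h1) h2 hqc hqd with ⟨m', hm', hh⟩ | ⟨m1, m3, hs, hh1, hh2⟩
          · exact Or.inl ⟨m', hm', hh.imp (R_lift hcu hqu) (R_lift hdu hqu)⟩
          · exact Or.inr ⟨m1, m3, hs, R_lift hcu hqu hh1, R_lift hdu hqu hh2⟩

/-- `A T l N p`: `p` is a base vertex or has a fork of total length at most `N` -/
def A (T : Set V) (l : List (V × V × V)) (N : ℕ) (p : V) : Prop := p ∈ T ∨ ∃ m, m ≤ N ∧ Fk T l p m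

lemma A_low {G : SimpleGraph V} {T : Set V} {l : List (V × V × V)} {u a b p : V} {N : ℕ}
    (hp : p ≠ u) (h : A T ((u, a, b) :: l) N p) : A T l N p := by
  rcases h with h | ⟨m, hm, h⟩
  · exact Or.inl h
  · rcases h with ⟨h, _⟩ | ⟨_, h⟩
    · exact absurd h hp
    · exact Or.inr ⟨m, hm, h⟩

/-- key lemma: two vertices with short forks are joined to the base by short disjoint paths -/
lemma key {G : SimpleGraph V} {T : Set V} (l : List (V × V × V)) : Good G T l →
    ∀ (p q : V) (N : ℕ), p ≠ q → p ∈ vs T l → q ∈ vs T l → A T l N p → A T l N q →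
    ∃ m, m ≤ N ∧ R T l p q m := by
  induction l with
  | nil =>
    intro _ p q N hpq hp hq _ _
    exact ⟨0, Nat.zero_le _, hp, hq, hpq, rfl⟩
  | cons r l ih =>
    obtain ⟨u, a, b⟩ := r
    intro hg
    have top : ∀ (q : V) (N : ℕ), q ≠ u → q ∈ vs T l → A T ((u, a, b) :: l) N u → A T l N q →
        ∃ m, m ≤ N ∧ R T ((u, a, b) :: l) u q m := by
      intro q N hqu hq hu hA
      rcases hu with hu | ⟨m, hm, hf⟩
      · exact absurd (base_sub T l hu) hg.2.1
      rcases hf with ⟨_, k, hk, hab⟩ | ⟨hf, _⟩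
      swap
      · exact absurd rfl hf
      by_cases hqa : q = a
      · subst hqa
        exact ⟨k + 1, by omega, R_left hqu (Or.inr rfl) (R_symm hab)⟩
      by_cases hqb : q = b
      · subst hqb
        exact ⟨k + 1, by omega, R_left hqu (Or.inl rfl) hab⟩
      rcases hA with hqT | ⟨m2, hm2, hf2⟩
      · obtain ⟨m', hm', hh⟩ := sink l hg.1 q a b k hqT hab
        rcases hh with hh | hh
        · exact ⟨m' + 1, by omega, R_left hqu (Or.inl rfl) hh⟩
        · exact ⟨m' + 1, by omega, R_left hqu (Or.inr rfl) hh⟩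
      · rcases forkex l hg.1 a b q k m2 hab hf2 hqa hqb with ⟨m', hm', hh⟩ | ⟨m1, m3, hs, hh1, hh2⟩
        · rcases hh with hh | hh
          · exact ⟨m' + 1, by omega, R_left hqu (Or.inl rfl) hh⟩
          · exact ⟨m' + 1, by omega, R_left hqu (Or.inr rfl) hh⟩
        · rcases le_total m1 m3 with h13 | h13
          · exact ⟨m1 + 1, by omega, R_left hqu (Or.inl rfl) hh1⟩
          · exact ⟨m3 + 1, by omega, R_left hqu (Or.inr rfl) hh2⟩
    intro p q N hpq hp hq hAp hAq
    by_cases hpu : p = u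
    · subst hpu
      have hq' : q ∈ vs T l := by
        rcases hq with hq | hq
        · exact absurd hq.symm hpq
        · exact hq
      exact top q N hpq.symm hq' hAp (A_low (G := G) hpq.symm hAq)
    · by_cases hqu : q = u
      · subst hqu
        have hp' : p ∈ vs T l := by
          rcases hp with hp | hp
          · exact absurd hp hpq
          · exact hp
        obtain ⟨m, hm, h⟩ := top p N hpq hp' hAq (A_low (G := G) hpq hAp)
        exact ⟨m, hm, R_symm h⟩
      · have hp' : p ∈ vs T l := by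
          rcases hp with hp | hp
          · exact absurd hp hpu
          · exact hp
        have hq' : q ∈ vs T l := by
          rcases hq with hq | hq
          · exact absurd hq hqu
          · exact hq
        obtain ⟨m, hm, h⟩ := ih hg.1 p q N hpq hp' hq' (A_low (G := G) hpu hAp) (A_low (G := G) hqu hAq)
        exact ⟨m, hm, R_lift hpu hqu h⟩

end Pool.Agent.H33.Crit
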