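import Pool.Agent.H33.CritStruct

set_option autoImplicit false

namespace Pool.Agent.H33.Crit

open Classical Finset

variable {V : Type*}

/-- endpoints of walks of length `i` that start in `T` and avoid `w` -/
noncomputable def E [Fintype V] (G : SimpleGraph V) (T : Finset V) (w : V) : ℕ → Finset V
  | 0 => T.erase w
  | i + 1 => ((E G T w i).biUnion (fun v => Finset.univ.filter (fun x => G.Adj v x))).erase w

lemma E_succ [Fintype V] {G : SimpleGraph V} {T : Finset V} {w u c : V} {i : ℕ}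
    (hc : c ∈ E G T w i) (h : G.Adj u c) (hu : u ≠ w) : u ∈ E G T w (i + 1) := by
  unfold E
  rw [Finset.mem_erase]
  refine ⟨hu, ?_⟩
  rw [Finset.mem_biUnion]
  exact ⟨c, hc, by simpa using h.symm⟩

lemma E_ne [Fintype V] {G : SimpleGraph V} {T : Finset V} {w c : V} {i : ℕ}
    (hc : c ∈ E G T w i) : c ≠ w := by
  cases i with
  | zero => unfold E at hc; exact (Finset.mem_erase.mp hc).1
  | succ i => unfold E at hc; exact (Finset.mem_erase.mp hc).1

lemma E_card [Fintype V] (G : SimpleGraph V) (T : Finset V) (w : V) (d : ℕ) (hT : T.card = 3)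
    (hd : ∀ v, v ≠ w → (G.neighborSet v).ncard ≤ d) : ∀ i, (E G T w i).card ≤ 3 * d ^ i := by
  intro i
  induction i with
  | zero =>
    unfold E
    have := Finset.card_le_card (Finset.erase_subset w T)
    rw [pow_zero]
    omega
  | succ i ih =>
    have h1 : (E G T w (i + 1)).card ≤ (E G T w i).card * d := by
      change ((((E G T w i).biUnion (fun v => Finset.univ.filter (fun x => G.Adj v x))).erase w)).card ≤ _
      refine (Finset.card_le_card (Finset.erase_subset _ _)).trans ?_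
      refine Finset.card_biUnion_le_card_mul _ _ _ ?_
      intro v hv
      have := hd v (E_ne hv)
      have h2 : G.neighborSet v = ((Finset.univ.filter (fun x => G.Adj v x) : Finset V) : Set V) := by
        ext x; simp
      rw [h2, Set.ncard_coe_finset] at this
      exact this
    calc (E G T w (i + 1)).card ≤ (E G T w i).card * d := h1
      _ ≤ (3 * d ^ i) * d := Nat.mul_le_mul_right d ih
      _ = 3 * d ^ (i + 1) := by rw [pow_succ]; ring

lemma reach_a [Fintype V] {G : SimpleGraph V} {T : Finset V} (w : V) (l : List (V × V × V)) :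
    Good G (T : Set V) l → w ∉ vs (T : Set V) l → ∀ (p q : V) (m : ℕ), R (T : Set V) l p q m →
    (∃ i, i ≤ m ∧ p ∈ E G T w i) ∧ (∃ j, j ≤ m ∧ q ∈ E G T w j) := by
  induction l with
  | nil =>
    intro _ hw p q m h
    obtain ⟨hp, hq, hpq, hm⟩ := h
    refine ⟨⟨0, Nat.zero_le _, ?_⟩, ⟨0, Nat.zero_le _, ?_⟩⟩
    · unfold E; rw [Finset.mem_erase]; refine ⟨?_, hp⟩; rintro rfl; exact hw hp
    · unfold E; rw [Finset.mem_erase]; refine ⟨?_, hq⟩; rintro rfl; exact hw hq
  | cons r l ih =>
    obtain ⟨u, a, b⟩ := r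
    intro hg hw
    have hwu : u ≠ w := by rintro rfl; exact hw (Or.inl rfl)
    have hwl : w ∉ vs (T : Set V) l := fun h => hw (Or.inr h)
    have top : ∀ (q : V) (m : ℕ), R (T : Set V) ((u, a, b) :: l) u q m →
        (∃ i, i ≤ m ∧ u ∈ E G T w i) ∧ (∃ j, j ≤ m ∧ q ∈ E G T w j) := by
      intro q m h
      obtain ⟨hqu, k, c, hm, hc, hcq⟩ := R_top h
      have hadj : G.Adj u c := by
        rcases hc with rfl | rfl
        · exact hg.2.2.2.2.2.1
        · exact hg.2.2.2.2.2.2
      obtain ⟨⟨i, hi, hci⟩, ⟨j, hj, hqj⟩⟩ := ih hg.1 hwl c q k hcq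
      exact ⟨⟨i + 1, by omega, E_succ hci hadj hwu⟩, ⟨j, by omega, hqj⟩⟩
    intro p q m h
    by_cases hpu : p = u
    · subst hpu; exact top q m h
    · by_cases hqu : q = u
      · subst hqu; exact (top p m (R_symm h)).symm
      · exact ih hg.1 hwl p q m (R_low hpu hqu h)

lemma reach_b [Fintype V] {G : SimpleGraph V} {T : Finset V} (w : V) (l : List (V × V × V)) :
    Good G (T : Set V) l → ∀ (p q : V) (m : ℕ), R (T : Set V) l p q m →
    (∃ i, i ≤ m ∧ p ∈ E G T w i) ∨ (∃ j, j ≤ m ∧ q ∈ E G T w j) := by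
  induction l with
  | nil =>
    intro _ p q m h
    obtain ⟨hp, hq, hpq, hm⟩ := h
    by_cases hpw : p = w
    · right
      refine ⟨0, Nat.zero_le _, ?_⟩
      unfold E; rw [Finset.mem_erase]; exact ⟨by rw [← hpw]; exact hpq.symm, hq⟩
    · left
      refine ⟨0, Nat.zero_le _, ?_⟩
      unfold E; rw [Finset.mem_erase]; exact ⟨hpw, hp⟩
  | cons r l ih =>
    obtain ⟨u, a, b⟩ := r
    intro hg
    have top : ∀ (q : V) (m : ℕ), R (T : Set V) ((u, a, b) :: l) u q m →
        (∃ i, i ≤ m ∧ u ∈ E G T w i) ∨ (∃ j, j ≤ m ∧ q ∈ E G T w j) := by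
      intro q m h
      obtain ⟨hqu, k, c, hm, hc, hcq⟩ := R_top h
      have hadj : G.Adj u c := by
        rcases hc with rfl | rfl
        · exact hg.2.2.2.2.2.1
        · exact hg.2.2.2.2.2.2
      by_cases hwu : u = w
      · subst hwu
        obtain ⟨_, ⟨j, hj, hqj⟩⟩ := reach_a u l hg.1 hg.2.1 c q k hcq
        exact Or.inr ⟨j, by omega, hqj⟩
      · rcases ih hg.1 c q k hcq with ⟨i, hi, hci⟩ | ⟨j, hj, hqj⟩
        · exact Or.inl ⟨i + 1, by omega, E_succ hci hadj hwu⟩
        · exact Or.inr ⟨j, by omega, hqj⟩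
    intro p q m h
    by_cases hpu : p = u
    · subst hpu; exact top q m h
    · by_cases hqu : q = u
      · subst hqu; exact (top p m (R_symm h)).symm
      · exact ih hg.1 p q m (R_low hpu hqu h)

lemma reach_fork [Fintype V] {G : SimpleGraph V} {T : Finset V} (w : V) (l : List (V × V × V)) :
    Good G (T : Set V) l → ∀ (p : V) (m : ℕ), p ≠ w → Fk (T : Set V) l p m →
    ∃ i, i + 1 ≤ m ∧ p ∈ E G T w i := by
  induction l with
  | nil => intro _ p m _ h; exact h.elim
  | cons r l ih =>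
    obtain ⟨u, a, b⟩ := r
    intro hg p m hpw h
    rcases h with ⟨hpu, k, hk, hR⟩ | ⟨hpu, h⟩
    · subst hpu
      rcases reach_b w l hg.1 a b k hR with ⟨i, hi, h⟩ | ⟨i, hi, h⟩
      · exact ⟨i + 1, by omega, E_succ h hg.2.2.2.2.2.1 hpw⟩
      · exact ⟨i + 1, by omega, E_succ h hg.2.2.2.2.2.2 hpw⟩
    · exact ih hg.1 p m hpw h

lemma geom (d : ℕ) (hd : 3 ≤ d) (N : ℕ) : 2 * ∑ i ∈ Finset.range N, 3 * d ^ i + 3 ≤ 3 * d ^ N := by
  induction N with
  | zero => simp
  | succ N ih =>
    rw [Finset.sum_range_succ]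
    have : 3 * d ^ N ≤ d ^ (N + 1) := by
      rw [pow_succ]; nlinarith [Nat.zero_le (d ^ N)]
    nlinarith

/-- all cycle lengths in critical graphs with at most one vertex of large degree -/
theorem all_lengths [Fintype V] (G : SimpleGraph V) (w : V) (d : ℕ)
    (hcard : G.edgeSet.ncard = 2 * Fintype.card V - 2)
    (hcrit : ∀ S : Set V, S.Nonempty → S ≠ Set.univ →
      ∃ v ∈ S, {u : V | u ∈ S ∧ G.Adj v u}.ncard < 3)
    (hd3 : 3 ≤ d) (hd : ∀ v, v ≠ w → (G.neighborSet v).ncard ≤ d) (ℓ : ℕ) (hℓ : 3 ≤ ℓ)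
    (hn : 2 * d ^ (ℓ - 3) ≤ Fintype.card V) :
    ∃ (u : V) (c : G.Walk u u), c.IsCycle ∧ c.length = ℓ := by
  have hn2 : 2 ≤ Fintype.card V := by
    have : 1 ≤ d ^ (ℓ - 3) := Nat.one_le_pow _ _ (by omega)
    omega
  obtain ⟨v₀, T, l, hT3, hT, hg, hv⟩ := structure_crit G hcard hcrit hn2
  rcases Nat.eq_or_lt_of_le hℓ with h3 | h4
  · -- the triangle
    subst h3
    obtain ⟨x, hx⟩ : T.Nonempty := by rw [← Finset.card_pos]; omega
    obtain ⟨y, hy⟩ : (T.erase x).Nonempty := by
      rw [← Finset.card_pos, Finset.card_erase_of_mem hx]; omega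
    rw [Finset.mem_erase] at hy
    obtain ⟨hxy, z, hz, hzx, hzy⟩ := hT x hx y hy.2 hy.1.symm
    have hyz : G.Adj y z := (hT y hy.2 z hz hzy.symm).1
    have hzx' : G.Adj z x := (hT z hz x hx hzx).1
    refine ⟨x, .cons hxy (.cons hyz (.cons hzx' .nil)), ?_, rfl⟩
    rw [SimpleGraph.Walk.cons_isCycle_iff]
    constructor
    · rw [SimpleGraph.Walk.cons_isPath_iff, SimpleGraph.Walk.cons_isPath_iff]
      refine ⟨⟨.nil, by simpa using hzx⟩, ?_⟩
      simp only [SimpleGraph.Walk.support_cons, SimpleGraph.Walk.support_nil, List.mem_cons,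
        List.not_mem_nil, or_false]
      push Not
      exact ⟨hzy.symm, hy.1⟩
    · simp only [SimpleGraph.Walk.edges_cons, SimpleGraph.Walk.edges_nil, List.mem_cons,
        List.not_mem_nil, or_false, Sym2.eq_iff]
      push Not
      refine ⟨⟨?_, ?_⟩, ⟨?_, ?_⟩⟩
      · intro h; exact absurd h.symm hy.1
      · intro h; exact absurd h.symm hzx
      · intro h; exact absurd h.symm hzx
      · intro _ h; exact hzy h.symm
  · rcases cycle_or_fork hT (ℓ - 3) l hg with ⟨u, c, hc, hl⟩ | hA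
    · exact ⟨u, c, hc, by omega⟩
    · exfalso
      have hsub : (Finset.univ : Finset V) ⊆
          insert v₀ (insert w ((Finset.range (ℓ - 3)).biUnion (fun i => E G T w i))) := by
        intro p _
        rw [Finset.mem_insert, Finset.mem_insert]
        by_cases hp0 : p = v₀
        · exact Or.inl hp0
        by_cases hpw : p = w
        · exact Or.inr (Or.inl hpw)
        right; right
        rw [Finset.mem_biUnion]
        have hpv : p ∈ vs (T : Set V) l := by rw [hv]; exact hp0
        rcases hA p hpv with hpT | ⟨m, hm, hF⟩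
        · refine ⟨0, by rw [Finset.mem_range]; omega, ?_⟩
          unfold E; rw [Finset.mem_erase]; exact ⟨hpw, hpT⟩
        · obtain ⟨i, hi, hpi⟩ := reach_fork w l hg p m hpw hF
          exact ⟨i, by rw [Finset.mem_range]; omega, hpi⟩
      have h1 := Finset.card_le_card hsub
      rw [Finset.card_univ] at h1
      have h2 : ((Finset.range (ℓ - 3)).biUnion (fun i => E G T w i)).card ≤
          ∑ i ∈ Finset.range (ℓ - 3), 3 * d ^ i :=
        Finset.card_biUnion_le.trans (Finset.sum_le_sum (fun i _ => E_card G T w d hT3 hd i))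
      have h3 := Finset.card_insert_le v₀ (insert w ((Finset.range (ℓ - 3)).biUnion (fun i => E G T w i)))
      have h5 := Finset.card_insert_le w ((Finset.range (ℓ - 3)).biUnion (fun i => E G T w i))
      have h6 := geom d hd3 (ℓ - 3)
      have h7 : 3 ≤ d ^ (ℓ - 3) := by
        calc 3 ≤ d := hd3
          _ = d ^ 1 := (pow_one d).symm
          _ ≤ d ^ (ℓ - 3) := Nat.pow_le_pow_right (by omega) (by omega)
      omega

end Pool.Agent.H33.Crit
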