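import Pool.Agent.H33.CritCore

set_option autoImplicit false

namespace Pool.Agent.H33.Crit

open Classical

variable {V : Type*}

lemma append_isPath {G : SimpleGraph V} {u v w : V} (p : G.Walk u v) (q : G.Walk v w)
    (hp : p.IsPath) (hq : q.IsPath) (h : ∀ x ∈ p.support, x ∈ q.support → x = v) :
    (p.append q).IsPath := by
  rw [SimpleGraph.Walk.isPath_def, SimpleGraph.Walk.support_append]
  rw [SimpleGraph.Walk.isPath_def] at hp hq
  have hq' : (v :: q.support.tail).Nodup := by
    rw [← SimpleGraph.Walk.support_eq_cons]; exact hq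
  rw [List.nodup_cons] at hq'
  rw [List.nodup_append]
  refine ⟨hp, hq'.2, ?_⟩
  intro a ha b hb hab
  subst hab
  have : a ∈ q.support := List.mem_of_mem_tail hb
  have := h a ha this
  subst this
  exact hq'.1 hb

/-- extraction of two disjoint paths to the base -/
lemma extract {G : SimpleGraph V} {T : Set V} (l : List (V × V × V)) : Good G T l →
    ∀ (p q : V) (m : ℕ), R T l p q m →
    ∃ s s', s ∈ T ∧ s' ∈ T ∧ s ≠ s' ∧ ∃ (P : G.Walk p s) (Q : G.Walk q s'),
      P.IsPath ∧ Q.IsPath ∧ P.length + Q.length = m ∧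
      (∀ v ∈ P.support, v ∈ vs T l) ∧ (∀ v ∈ Q.support, v ∈ vs T l) ∧
      (∀ v ∈ P.support, v ∉ Q.support) ∧
      (∀ v ∈ P.support, v ∈ T → v = s) ∧ (∀ v ∈ Q.support, v ∈ T → v = s') := by
  induction l with
  | nil =>
    intro _ p q m h
    obtain ⟨hp, hq, hpq, hm⟩ := h
    subst hm
    refine ⟨p, q, hp, hq, hpq, .nil, .nil, .nil, .nil, rfl, ?_, ?_, ?_, ?_, ?_⟩
    · intro v hv; rw [SimpleGraph.Walk.support_nil, List.mem_singleton] at hv; rw [hv]; exact hp
    · intro v hv; rw [SimpleGraph.Walk.support_nil, List.mem_singleton] at hv; rw [hv]; exact hq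
    · intro v hv hv'
      rw [SimpleGraph.Walk.support_nil, List.mem_singleton] at hv hv'
      exact hpq (hv.symm.trans hv')
    · intro v hv _; rwa [SimpleGraph.Walk.support_nil, List.mem_singleton] at hv
    · intro v hv _; rwa [SimpleGraph.Walk.support_nil, List.mem_singleton] at hv
  | cons r l ih =>
    obtain ⟨u, a, b⟩ := r
    intro hg
    have huT : u ∉ T := fun h => hg.2.1 (base_sub T l h)
    have top : ∀ (q : V) (m : ℕ), R T ((u, a, b) :: l) u q m →
      ∃ s s', s ∈ T ∧ s' ∈ T ∧ s ≠ s' ∧ ∃ (P : G.Walk u s) (Q : G.Walk q s'),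
      P.IsPath ∧ Q.IsPath ∧ P.length + Q.length = m ∧
      (∀ v ∈ P.support, v ∈ vs T ((u, a, b) :: l)) ∧ (∀ v ∈ Q.support, v ∈ vs T ((u, a, b) :: l)) ∧
      (∀ v ∈ P.support, v ∉ Q.support) ∧
      (∀ v ∈ P.support, v ∈ T → v = s) ∧ (∀ v ∈ Q.support, v ∈ T → v = s') := by
      intro q m h
      obtain ⟨hqu, k, c, hm, hc, hcq⟩ := R_top h
      obtain ⟨s, s', hs, hs', hss, P, Q, hP, hQ, hlen, hPv, hQv, hdis, hPT, hQT⟩ := ih hg.1 c q k hcq
      have hadj : G.Adj u c := by
        rcases hc with rfl | rfl
        · exact hg.2.2.2.2.2.1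
        · exact hg.2.2.2.2.2.2
      have huP : u ∉ P.support := fun h => hg.2.1 (hPv u h)
      have huQ : u ∉ Q.support := fun h => hg.2.1 (hQv u h)
      refine ⟨s, s', hs, hs', hss, .cons hadj P, Q, ?_, hQ, ?_, ?_, ?_, ?_, ?_, hQT⟩
      · rw [SimpleGraph.Walk.cons_isPath_iff]; exact ⟨hP, huP⟩
      · rw [SimpleGraph.Walk.length_cons]; omega
      · intro v hv
        rw [SimpleGraph.Walk.support_cons, List.mem_cons] at hv
        rcases hv with hv | hv
        · exact Or.inl hv
        · exact Or.inr (hPv v hv)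
      · intro v hv; exact Or.inr (hQv v hv)
      · intro v hv
        rw [SimpleGraph.Walk.support_cons, List.mem_cons] at hv
        rcases hv with hv | hv
        · rw [hv]; exact huQ
        · exact hdis v hv
      · intro v hv hvT
        rw [SimpleGraph.Walk.support_cons, List.mem_cons] at hv
        rcases hv with hv | hv
        · rw [hv] at hvT; exact absurd hvT huT
        · exact hPT v hv hvT
    intro p q m h
    by_cases hpu : p = u
    · subst hpu; exact top q m h
    · by_cases hqu : q = u
      · subst hqu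
        obtain ⟨s, s', hs, hs', hss, P, Q, hP, hQ, hlen, hPv, hQv, hdis, hPT, hQT⟩ := top p m (R_symm h)
        exact ⟨s', s, hs', hs, hss.symm, Q, P, hQ, hP, by omega, hQv, hPv,
          fun v hv hv' => hdis v hv' hv, hQT, hPT⟩
      · obtain ⟨s, s', hs, hs', hss, P, Q, hP, hQ, hlen, hPv, hQv, hdis, hPT, hQT⟩ :=
          ih hg.1 p q m (R_low hpu hqu h)
        exact ⟨s, s', hs, hs', hss, P, Q, hP, hQ, hlen, fun v hv => Or.inr (hPv v hv),
          fun v hv => Or.inr (hQv v hv), hdis, hPT, hQT⟩

/-- closing two disjoint paths through a connecting path -/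
lemma close {G : SimpleGraph V} {u a b s s' : V} (hab : a ≠ b) (hua : G.Adj u a) (hub : G.Adj u b)
    (P : G.Walk a s) (Q : G.Walk b s') (M : G.Walk s s') (hP : P.IsPath) (hQ : Q.IsPath)
    (hM : M.IsPath) (hPQ : ∀ v ∈ P.support, v ∉ Q.support) (hPM : ∀ v ∈ P.support, v ∈ M.support → v = s)
    (hQM : ∀ v ∈ Q.support, v ∈ M.support → v = s') (huP : u ∉ P.support) (huQ : u ∉ Q.support)
    (huM : u ∉ M.support) :
    ∃ (w : V) (c : G.Walk w w), c.IsCycle ∧ c.length = P.length + Q.length + M.length + 2 := by
  have h1 : (M.append Q.reverse).IsPath := by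
    refine append_isPath M Q.reverse hM hQ.reverse ?_
    intro x hx hx'
    rw [SimpleGraph.Walk.support_reverse, List.mem_reverse] at hx'
    exact hQM x hx' hx
  have h2 : (P.append (M.append Q.reverse)).IsPath := by
    refine append_isPath P _ hP h1 ?_
    intro x hx hx'
    rw [SimpleGraph.Walk.mem_support_append_iff] at hx'
    rcases hx' with hx' | hx'
    · exact hPM x hx hx'
    · rw [SimpleGraph.Walk.support_reverse, List.mem_reverse] at hx'
      exact absurd hx' (hPQ x hx)
  have hu : u ∉ (P.append (M.append Q.reverse)).support := by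
    rw [SimpleGraph.Walk.mem_support_append_iff, SimpleGraph.Walk.mem_support_append_iff,
      SimpleGraph.Walk.support_reverse, List.mem_reverse]
    push Not
    exact ⟨huP, huM, huQ⟩
  have h3 : ((P.append (M.append Q.reverse)).concat hub.symm).IsPath :=
    SimpleGraph.Walk.IsPath.concat h2 hu _
  refine ⟨u, .cons hua ((P.append (M.append Q.reverse)).concat hub.symm), ?_, ?_⟩
  · rw [SimpleGraph.Walk.cons_isCycle_iff]
    refine ⟨h3, ?_⟩
    rw [SimpleGraph.Walk.edges_concat, List.concat_eq_append, List.mem_append, List.mem_singleton]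
    push Not
    constructor
    · intro h
      exact hu (SimpleGraph.Walk.fst_mem_support_of_mem_edges _ h)
    · intro h
      rw [Sym2.eq_iff] at h
      rcases h with ⟨h, _⟩ | ⟨_, h⟩
      · exact hub.ne h
      · exact hab h
  · rw [SimpleGraph.Walk.length_cons, SimpleGraph.Walk.length_concat, SimpleGraph.Walk.length_append,
      SimpleGraph.Walk.length_append, SimpleGraph.Walk.length_reverse]
    omega

/-- a base in which any two vertices are adjacent and have a third one -/
def Tri (G : SimpleGraph V) (T : Set V) : Prop :=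
  ∀ s ∈ T, ∀ s' ∈ T, s ≠ s' → G.Adj s s' ∧ ∃ r ∈ T, r ≠ s ∧ r ≠ s'

lemma cycles_of_R {G : SimpleGraph V} {T : Set V} (hT : Tri G T) (l : List (V × V × V)) (u a b : V)
    (hg : Good G T ((u, a, b) :: l)) (m : ℕ) (h : R T l a b m) :
    (∃ (w : V) (c : G.Walk w w), c.IsCycle ∧ c.length = m + 3) ∧
    (∃ (w : V) (c : G.Walk w w), c.IsCycle ∧ c.length = m + 4) := by
  obtain ⟨hg1, hu, ha, hb, hab, hua, hub⟩ := hg
  obtain ⟨s, s', hs, hs', hss, P, Q, hP, hQ, hlen, hPv, hQv, hdis, hPT, hQT⟩ := extract l hg1 a b m h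
  obtain ⟨hadj, r, hr, hrs, hrs'⟩ := hT s hs s' hs' hss
  have huP : u ∉ P.support := fun h => hu (hPv u h)
  have huQ : u ∉ Q.support := fun h => hu (hQv u h)
  have huT : u ∉ T := fun h => hu (base_sub T l h)
  constructor
  · obtain ⟨w, c, hc, hl⟩ := close hab hua hub P Q (.cons hadj .nil) hP hQ
      (by rw [SimpleGraph.Walk.cons_isPath_iff]; exact ⟨.nil, by simpa using hss⟩) hdis
      (by
        intro v hv hv'
        simp only [SimpleGraph.Walk.support_cons, SimpleGraph.Walk.support_nil, List.mem_cons,
          List.not_mem_nil, or_false] at hv'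
        rcases hv' with hv' | hv'
        · exact hv'
        · exact hPT v hv (hv' ▸ hs'))
      (by
        intro v hv hv'
        simp only [SimpleGraph.Walk.support_cons, SimpleGraph.Walk.support_nil, List.mem_cons,
          List.not_mem_nil, or_false] at hv'
        rcases hv' with hv' | hv'
        · exact hQT v hv (hv' ▸ hs)
        · exact hv')
      huP huQ
      (by
        intro hv'
        simp only [SimpleGraph.Walk.support_cons, SimpleGraph.Walk.support_nil, List.mem_cons,
          List.not_mem_nil, or_false] at hv'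
        rcases hv' with hv' | hv'
        · exact huT (hv' ▸ hs)
        · exact huT (hv' ▸ hs'))
    refine ⟨w, c, hc, ?_⟩
    rw [hl]; simp only [SimpleGraph.Walk.length_cons, SimpleGraph.Walk.length_nil]; omega
  · have h1 : G.Adj s r := (hT s hs r hr hrs.symm).1
    have h2 : G.Adj r s' := (hT r hr s' hs' hrs').1
    obtain ⟨w, c, hc, hl⟩ := close hab hua hub P Q (.cons h1 (.cons h2 .nil)) hP hQ
      (by
        rw [SimpleGraph.Walk.cons_isPath_iff, SimpleGraph.Walk.cons_isPath_iff]
        refine ⟨⟨.nil, by simpa using hrs'⟩, ?_⟩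
        simp only [SimpleGraph.Walk.support_cons, SimpleGraph.Walk.support_nil, List.mem_cons,
          List.not_mem_nil, or_false]
        push Not
        exact ⟨hrs.symm, hss⟩) hdis
      (by
        intro v hv hv'
        simp only [SimpleGraph.Walk.support_cons, SimpleGraph.Walk.support_nil, List.mem_cons,
          List.not_mem_nil, or_false] at hv'
        rcases hv' with hv' | hv' | hv'
        · exact hv'
        · exact hPT v hv (hv' ▸ hr)
        · exact hPT v hv (hv' ▸ hs'))
      (by
        intro v hv hv'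
        simp only [SimpleGraph.Walk.support_cons, SimpleGraph.Walk.support_nil, List.mem_cons,
          List.not_mem_nil, or_false] at hv'
        rcases hv' with hv' | hv' | hv'
        · exact hQT v hv (hv' ▸ hs)
        · exact hQT v hv (hv' ▸ hr)
        · exact hv')
      huP huQ
      (by
        intro hv'
        simp only [SimpleGraph.Walk.support_cons, SimpleGraph.Walk.support_nil, List.mem_cons,
          List.not_mem_nil, or_false] at hv'
        rcases hv' with hv' | hv' | hv'
        · exact huT (hv' ▸ hs)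
        · exact huT (hv' ▸ hr)
        · exact huT (hv' ▸ hs'))
    refine ⟨w, c, hc, ?_⟩
    rw [hl]; simp only [SimpleGraph.Walk.length_cons, SimpleGraph.Walk.length_nil]; omega

/-- If a vertex has no fork of total length at most `N`, then there is a cycle of length `N + 3`. -/
lemma cycle_or_fork {G : SimpleGraph V} {T : Set V} (hT : Tri G T) (N : ℕ) (l : List (V × V × V)) :
    Good G T l → (∃ (w : V) (c : G.Walk w w), c.IsCycle ∧ c.length = N + 3) ∨
      ∀ p ∈ vs T l, A T l N p := by
  induction l with
  | nil => intro _; right; intro p hp; exact Or.inl hp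
  | cons r l ih =>
    obtain ⟨u, a, b⟩ := r
    intro hg
    rcases ih hg.1 with h | h
    · exact Or.inl h
    obtain ⟨hg1, hu, ha, hb, hab, hua, hub⟩ := id hg
    obtain ⟨m, hm, hR⟩ := key l hg1 a b N hab ha hb (h a ha) (h b hb)
    by_cases hmN : m + 2 ≤ N
    · right
      intro p hp
      by_cases hpu : p = u
      · exact Or.inr ⟨m + 2, hmN, Or.inl ⟨hpu, m, rfl, hR⟩⟩
      · have hp' : p ∈ vs T l := by
          rcases hp with hp | hp
          · exact absurd hp hpu
          · exact hp
        rcases h p hp' with h' | ⟨k, hk, h'⟩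
        · exact Or.inl h'
        · exact Or.inr ⟨k, hk, Or.inr ⟨hpu, h'⟩⟩
    · left
      have hc := cycles_of_R hT l u a b hg m hR
      rcases Nat.lt_or_ge m N with h1 | h1
      · -- m = N - 1
        obtain ⟨w, c, hc1, hc2⟩ := hc.2
        exact ⟨w, c, hc1, by omega⟩
      · obtain ⟨w, c, hc1, hc2⟩ := hc.1
        exact ⟨w, c, hc1, by omega⟩

end Pool.Agent.H33.Crit
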