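import Pool.Agent.H33.CritCycle

set_option autoImplicit false

namespace Pool.Agent.H33.Crit

open Classical Finset

variable {V : Type*}

/-- twice the number of edges inside `A` -/
noncomputable def D (G : SimpleGraph V) (A : Finset V) : ℕ := ∑ a ∈ A, (A.filter (fun b => G.Adj a b)).card

lemma D_erase (G : SimpleGraph V) (A : Finset V) (u : V) (hu : u ∈ A) :
    D G A = D G (A.erase u) + 2 * (A.filter (fun b => G.Adj u b)).card := by
  unfold D
  rw [← Finset.add_sum_erase A _ hu]
  have h1 : ∀ a ∈ A.erase u, (A.filter (fun b => G.Adj a b)).card =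
      ((A.erase u).filter (fun b => G.Adj a b)).card + (if G.Adj u a then 1 else 0) := by
    intro a ha
    have hA : A = insert u (A.erase u) := (Finset.insert_erase hu).symm
    conv_lhs => rw [hA]
    rw [Finset.filter_insert]
    split_ifs with h h' h'
    · rw [Finset.card_insert_of_notMem]
      simp
    · exact absurd h.symm h'
    · exact absurd h'.symm h
    · rfl
  rw [Finset.sum_congr rfl h1, Finset.sum_add_distrib]
  have h2 : (∑ a ∈ A.erase u, if G.Adj u a then 1 else 0) = (A.filter (fun b => G.Adj u b)).card := by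
    rw [Finset.card_filter]
    rw [← Finset.add_sum_erase A _ hu]
    simp
  rw [h2]
  omega

lemma D_le (G : SimpleGraph V) (A : Finset V) : D G A + A.card ≤ A.card * A.card := by
  unfold D
  have : ∀ a ∈ A, (A.filter (fun b => G.Adj a b)).card + 1 ≤ A.card := by
    intro a ha
    have : A.filter (fun b => G.Adj a b) ⊆ A.erase a := by
      intro b hb
      rw [Finset.mem_filter] at hb
      rw [Finset.mem_erase]
      exact ⟨hb.2.ne', hb.1⟩
    have := Finset.card_le_card this
    rw [Finset.card_erase_of_mem ha] at this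
    have := Finset.card_pos.mpr ⟨a, ha⟩
    omega
  calc ∑ a ∈ A, (A.filter (fun b => G.Adj a b)).card + A.card
      = ∑ a ∈ A, ((A.filter (fun b => G.Adj a b)).card + 1) := by
        rw [Finset.sum_add_distrib]; simp
    _ ≤ ∑ a ∈ A, A.card := Finset.sum_le_sum this
    _ = A.card * A.card := by rw [Finset.sum_const, smul_eq_mul]

/-- upper bound for 2-degenerate sets -/
lemma D_upper (G : SimpleGraph V) (A₀ : Finset V)
    (h : ∀ B ⊆ A₀, B.Nonempty → ∃ u ∈ B, (B.filter (fun b => G.Adj u b)).card ≤ 2) :
    ∀ (n : ℕ) (B : Finset V), B ⊆ A₀ → B.card = n → 2 ≤ n → D G B + 6 ≤ 4 * n := by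
  intro n
  induction n with
  | zero => intro B _ _ h2; omega
  | succ n ih =>
    intro B hB hc h2
    rcases Nat.lt_or_ge n 2 with hn | hn
    · have := D_le G B
      have hc2 : B.card = 2 := by omega
      rw [hc2] at this
      omega
    · have hne : B.Nonempty := by rw [← Finset.card_pos]; omega
      obtain ⟨u, hu, hd⟩ := h B hB hne
      have h1 := D_erase G B u hu
      have h3 := ih (B.erase u) ((Finset.erase_subset u B).trans hB)
        (by rw [Finset.card_erase_of_mem hu]; omega) hn
      omega

/-- building sequences exist for tight 2-degenerate sets -/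
lemma build (G : SimpleGraph V) (A₀ : Finset V)
    (h : ∀ B ⊆ A₀, B.Nonempty → ∃ u ∈ B, (B.filter (fun b => G.Adj u b)).card ≤ 2) :
    ∀ (n : ℕ) (B : Finset V), B ⊆ A₀ → B.card = n → 3 ≤ n → 4 * n ≤ D G B + 6 →
    ∃ (T : Finset V) (l : List (V × V × V)), T.card = 3 ∧ Tri G (T : Set V) ∧ Good G (T : Set V) l ∧
      vs (T : Set V) l = (B : Set V) := by
  intro n
  induction n with
  | zero => intro B _ _ h2; omega
  | succ n ih =>
    intro B hB hc h3 hD
    rcases Nat.lt_or_ge n 3 with hn | hn
    · -- triangle
      have hc3 : B.card = 3 := by omega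
      refine ⟨B, [], hc3, ?_, trivial, rfl⟩
      have hle : ∀ a ∈ B, (B.filter (fun b => G.Adj a b)).card ≤ 2 := by
        intro a ha
        have : B.filter (fun b => G.Adj a b) ⊆ B.erase a := by
          intro b hb
          rw [Finset.mem_filter] at hb
          rw [Finset.mem_erase]
          exact ⟨hb.2.ne', hb.1⟩
        have := Finset.card_le_card this
        rw [Finset.card_erase_of_mem ha] at this
        omega
      have heq : ∀ a ∈ B, (B.filter (fun b => G.Adj a b)).card = 2 := by
        by_contra hcon
        push Not at hcon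
        obtain ⟨a, ha, hne⟩ := hcon
        have hlt : ∑ a ∈ B, (B.filter (fun b => G.Adj a b)).card < ∑ a ∈ B, 2 := by
          refine Finset.sum_lt_sum hle ⟨a, ha, ?_⟩
          have := hle a ha
          omega
        rw [Finset.sum_const, hc3] at hlt
        unfold D at hD
        simp only [smul_eq_mul] at hlt
        omega
      have hall : ∀ a ∈ B, ∀ b ∈ B, a ≠ b → G.Adj a b := by
        intro a ha b hb hab
        have hsub : B.filter (fun b => G.Adj a b) ⊆ B.erase a := by
          intro b hb
          rw [Finset.mem_filter] at hb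
          rw [Finset.mem_erase]
          exact ⟨hb.2.ne', hb.1⟩
        have hce : (B.erase a).card = 2 := by rw [Finset.card_erase_of_mem ha]; omega
        have hEq : B.filter (fun b => G.Adj a b) = B.erase a :=
          Finset.eq_of_subset_of_card_le hsub (by rw [hce, heq a ha])
        have : b ∈ B.filter (fun b => G.Adj a b) := by
          rw [hEq, Finset.mem_erase]; exact ⟨hab.symm, hb⟩
        exact (Finset.mem_filter.mp this).2
      intro s hs s' hs' hss
      rw [Finset.mem_coe] at hs hs'
      refine ⟨hall s hs s' hs' hss, ?_⟩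
      have : ((B.erase s).erase s').Nonempty := by
        rw [← Finset.card_pos, Finset.card_erase_of_mem (by rw [Finset.mem_erase]; exact ⟨hss.symm, hs'⟩),
          Finset.card_erase_of_mem hs]
        omega
      obtain ⟨r, hr⟩ := this
      rw [Finset.mem_erase, Finset.mem_erase] at hr
      exact ⟨r, by rw [Finset.mem_coe]; exact hr.2.2, hr.2.1, hr.1⟩
    · have hne : B.Nonempty := by rw [← Finset.card_pos]; omega
      obtain ⟨u, hu, hd⟩ := h B hB hne
      have h1 := D_erase G B u hu
      have hcard : (B.erase u).card = n := by rw [Finset.card_erase_of_mem hu]; omega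
      have hsub : B.erase u ⊆ A₀ := (Finset.erase_subset u B).trans hB
      have h2 := D_upper G A₀ h n (B.erase u) hsub hcard (by omega)
      obtain ⟨T, l, hT3, hT, hg, hv⟩ := ih (B.erase u) hsub hcard hn (by omega)
      have hlt : 1 < (B.filter (fun b => G.Adj u b)).card := by omega
      rw [Finset.one_lt_card] at hlt
      obtain ⟨a, ha, b, hb, hab⟩ := hlt
      rw [Finset.mem_filter] at ha hb
      refine ⟨T, (u, a, b) :: l, hT3, hT, ⟨hg, ?_, ?_, ?_, hab, ha.2, hb.2⟩, ?_⟩
      · rw [hv]; simp
      · rw [hv, Finset.mem_coe, Finset.mem_erase]; exact ⟨ha.2.ne', ha.1⟩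
      · rw [hv, Finset.mem_coe, Finset.mem_erase]; exact ⟨hb.2.ne', hb.1⟩
      · change insert u (vs (T : Set V) l) = _
        rw [hv]
        ext x
        simp only [Finset.coe_erase, Set.mem_insert_iff, Set.mem_diff, Finset.mem_coe, Set.mem_singleton_iff]
        constructor
        · rintro (rfl | h)
          · exact hu
          · exact h.1
        · intro hx
          by_cases hxu : x = u
          · exact Or.inl hxu
          · exact Or.inr ⟨hx, hxu⟩

/-- the structure of degree 3-critical graphs used here -/
lemma structure_crit [Fintype V] (G : SimpleGraph V)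
    (hcard : G.edgeSet.ncard = 2 * Fintype.card V - 2)
    (hcrit : ∀ S : Set V, S.Nonempty → S ≠ Set.univ →
      ∃ v ∈ S, {w : V | w ∈ S ∧ G.Adj v w}.ncard < 3) (hn : 2 ≤ Fintype.card V) :
    ∃ (v₀ : V) (T : Finset V) (l : List (V × V × V)), T.card = 3 ∧ Tri G (T : Set V) ∧
      Good G (T : Set V) l ∧ vs (T : Set V) l = {v₀}ᶜ := by
  have hsum : ∑ v, G.degree v = 2 * (2 * Fintype.card V - 2) := by
    rw [SimpleGraph.sum_degrees_eq_twice_card_edges, ← hcard, ← SimpleGraph.coe_edgeFinset,
      Set.ncard_coe_finset]
  have hDdeg : D G Finset.univ = ∑ v, G.degree v := by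
    unfold D
    refine Finset.sum_congr rfl ?_
    intro v _
    rw [← SimpleGraph.card_neighborFinset_eq_degree]
    congr 1
    ext w
    simp
  have hn4 : 4 ≤ Fintype.card V := by
    have h := D_le G Finset.univ
    rw [hDdeg, hsum, Finset.card_univ] at h
    by_contra hlt
    push Not at hlt
    interval_cases hV : Fintype.card V <;> omega
  have hex : ∃ v₀ : V, G.degree v₀ ≤ 3 := by
    by_contra hcon
    push Not at hcon
    have h4 : ∑ v : V, 4 ≤ ∑ v, G.degree v := Finset.sum_le_sum (fun v _ => hcon v)
    rw [hsum, Finset.sum_const, Finset.card_univ, smul_eq_mul] at h4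
    omega
  obtain ⟨v₀, hv₀⟩ := hex
  have hher : ∀ B ⊆ Finset.univ.erase v₀, B.Nonempty →
      ∃ u ∈ B, (B.filter (fun b => G.Adj u b)).card ≤ 2 := by
    intro B hB hne
    have hne' : (B : Set V) ≠ Set.univ := by
      intro h
      have : v₀ ∈ B := by
        have : v₀ ∈ (B : Set V) := by rw [h]; trivial
        exact this
      have := hB this
      simp at this
    obtain ⟨v, hv, hlt⟩ := hcrit (B : Set V) (by exact_mod_cast hne) hne'
    refine ⟨v, hv, ?_⟩
    have : {w : V | w ∈ (B : Set V) ∧ G.Adj v w} = ((B.filter (fun b => G.Adj v b) : Finset V) : Set V) := by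
      ext w; simp
    rw [this, Set.ncard_coe_finset] at hlt
    omega
  have hD0 := D_erase G Finset.univ v₀ (Finset.mem_univ v₀)
  have hdeg0 : (Finset.univ.filter (fun b => G.Adj v₀ b)).card = G.degree v₀ := by
    rw [← SimpleGraph.card_neighborFinset_eq_degree]
    congr 1
    ext w
    simp
  have hc : (Finset.univ.erase v₀).card = Fintype.card V - 1 := by
    rw [Finset.card_erase_of_mem (Finset.mem_univ _), Finset.card_univ]
  obtain ⟨T, l, h1, h2, h3, h4⟩ := build G (Finset.univ.erase v₀) hher (Fintype.card V - 1)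
    (Finset.univ.erase v₀) subset_rfl hc (by omega) (by rw [hdeg0, hDdeg, hsum] at hD0; omega)
  refine ⟨v₀, T, l, h1, h2, h3, ?_⟩
  rw [h4]
  ext x
  simp

end Pool.Agent.H33.Crit
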